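import Pool.Agent.helper93.FR.Spec

/-! Row Comp1 of the FR project (MP_29f1cd_al). -/

namespace Pool.Agent.helper16.FR

open Matrix Pool.Agent.helper93.FR

variable {κ : Type} {d : ℕ}

/-- The commutant of the members of S. -/
def Cm (z : κ → Matrix (Fin d) (Fin d) ℂ) (S : Finset κ) :
    Submodule ℂ (Matrix (Fin d) (Fin d) ℂ) where
  carrier := {c | ∀ j ∈ S, c * z j = z j * c ∧ c * (z j)ᴴ = (z j)ᴴ * c}
  add_mem' := by
    intro a b ha hb j hj
    refine ⟨?_, ?_⟩
    · rw [add_mul, mul_add, (ha j hj).1, (hb j hj).1]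
    · rw [add_mul, mul_add, (ha j hj).2, (hb j hj).2]
  zero_mem' := by
    intro j _
    simp
  smul_mem' := by
    intro t a ha j hj
    refine ⟨?_, ?_⟩
    · rw [smul_mul_assoc, mul_smul_comm, (ha j hj).1]
    · rw [smul_mul_assoc, mul_smul_comm, (ha j hj).2]

/-- Invariance under the members of S and their conjugate transposes. -/
def Iv (z : κ → Matrix (Fin d) (Fin d) ℂ) (S : Finset κ)
    (M : Submodule ℂ (EuclideanSpace ℂ (Fin d))) : Prop :=
  ∀ j ∈ S, ∀ v ∈ M, toEuclideanLin (z j) v ∈ M ∧ toEuclideanLin (z j)ᴴ v ∈ M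

/-- The smallest invariant subspace containing a vector. -/
def Ms (z : κ → Matrix (Fin d) (Fin d) ℂ) (x : EuclideanSpace ℂ (Fin d)) (S : Finset κ) :
    Submodule ℂ (EuclideanSpace ℂ (Fin d)) :=
  sInf {M | x ∈ M ∧ Iv z S M}

theorem mem_Ms (z : κ → Matrix (Fin d) (Fin d) ℂ) (x : EuclideanSpace ℂ (Fin d))
    (S : Finset κ) : x ∈ Ms z x S := by
  rw [Ms, Submodule.mem_sInf]
  intro M hM
  exact hM.1

theorem inv_Ms (z : κ → Matrix (Fin d) (Fin d) ℂ) (x : EuclideanSpace ℂ (Fin d))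
    (S : Finset κ) : Iv z S (Ms z x S) := by
  intro j hj v hv
  rw [Ms, Submodule.mem_sInf] at hv
  refine ⟨?_, ?_⟩
  · rw [Ms, Submodule.mem_sInf]
    intro M hM
    exact (hM.2 j hj v (hv M hM)).1
  · rw [Ms, Submodule.mem_sInf]
    intro M hM
    exact (hM.2 j hj v (hv M hM)).2

theorem Ms_le {z : κ → Matrix (Fin d) (Fin d) ℂ} {x : EuclideanSpace ℂ (Fin d)}
    {S : Finset κ} {M : Submodule ℂ (EuclideanSpace ℂ (Fin d))} (hx : x ∈ M)
    (hM : Iv z S M) : Ms z x S ≤ M :=
  sInf_le ⟨hx, hM⟩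

theorem Ms_mono (z : κ → Matrix (Fin d) (Fin d) ℂ) (x : EuclideanSpace ℂ (Fin d))
    {S S' : Finset κ} (h : S ⊆ S') : Ms z x S ≤ Ms z x S' :=
  Ms_le (mem_Ms z x S') fun j hj v hv => inv_Ms z x S' j (h hj) v hv

theorem proj_comm (A : Matrix (Fin d) (Fin d) ℂ) (M : Submodule ℂ (EuclideanSpace ℂ (Fin d)))
    (h1 : ∀ v ∈ M, toEuclideanLin A v ∈ M) (h2 : ∀ v ∈ M, toEuclideanLin Aᴴ v ∈ M)
    (v : EuclideanSpace ℂ (Fin d)) :
    M.starProjection (toEuclideanLin A v) = toEuclideanLin A (M.starProjection v) := by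
  refine Submodule.eq_starProjection_of_mem_orthogonal
    (h1 _ (Submodule.starProjection_apply_mem M v)) ?_
  rw [← map_sub, Submodule.mem_orthogonal]
  intro u hu
  have h3 : v - M.starProjection v ∈ Mᗮ := Submodule.sub_starProjection_mem_orthogonal v
  rw [Submodule.mem_orthogonal] at h3
  have h4 := h3 _ (h2 u hu)
  rw [Matrix.toEuclideanLin_conjTranspose_eq_adjoint, LinearMap.adjoint_inner_left] at h4
  exact h4

theorem irr_top {z : κ → Matrix (Fin d) (Fin d) ℂ} {Γ : Finset κ} (hI : IrrOn Γ z)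
    {M : Submodule ℂ (EuclideanSpace ℂ (Fin d))} (hM : Iv z Γ M) (h0 : M ≠ ⊥) : M = ⊤ := by
  obtain ⟨t, ht⟩ := hI.2 (toEuclideanLin.symm (M.starProjection : EuclideanSpace ℂ (Fin d) →ₗ[ℂ]
    EuclideanSpace ℂ (Fin d))) (by
      intro j hj
      have key : ∀ A : Matrix (Fin d) (Fin d) ℂ, (∀ v ∈ M, toEuclideanLin A v ∈ M) →
          (∀ v ∈ M, toEuclideanLin Aᴴ v ∈ M) →
          toEuclideanLin.symm (M.starProjection : EuclideanSpace ℂ (Fin d) →ₗ[ℂ]
            EuclideanSpace ℂ (Fin d)) * A =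
          A * toEuclideanLin.symm (M.starProjection : EuclideanSpace ℂ (Fin d) →ₗ[ℂ]
            EuclideanSpace ℂ (Fin d)) := by
        intro A h1 h2
        apply toEuclideanLin.injective
        ext1 v
        have e : ∀ B C : Matrix (Fin d) (Fin d) ℂ, toEuclideanLin (B * C) v =
            toEuclideanLin B (toEuclideanLin C v) := by
          intro B C
          simp [toLpLin_apply]
        rw [e, e, LinearEquiv.apply_symm_apply]
        exact proj_comm A M h1 h2 v
      refine ⟨key _ (fun v hv => (hM j hj v hv).1) (fun v hv => (hM j hj v hv).2),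
        key _ (fun v hv => (hM j hj v hv).2) (fun v hv => ?_)⟩
      rw [conjTranspose_conjTranspose]
      exact (hM j hj v hv).1)
  have h1 : ∀ v, M.starProjection v = t • v := by
    intro v
    have h2 := congrArg (fun A => toEuclideanLin A v) ht
    simp only [LinearEquiv.apply_symm_apply] at h2
    rw [map_smul] at h2
    simpa [toLpLin_apply] using h2
  obtain ⟨m, hm, hm0⟩ := (Submodule.ne_bot_iff M).1 h0
  have h2 : M.starProjection m = m := Submodule.starProjection_eq_self_iff.2 hm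
  have h3 : t = 1 := by
    rw [h1] at h2
    have h4 : (t - 1) • m = 0 := by rw [sub_smul, h2, one_smul, sub_self]
    rcases smul_eq_zero.1 h4 with h | h
    · exact sub_eq_zero.1 h
    · exact absurd h hm0
  rw [eq_top_iff]
  intro v _
  rw [← Submodule.starProjection_eq_self_iff, h1, h3, one_smul]

theorem step1 [DecidableEq κ] {z : κ → Matrix (Fin d) (Fin d) ℂ} {Γ : Finset κ}
    (hI : IrrOn Γ z) {x : EuclideanSpace ℂ (Fin d)} (hx : x ≠ 0) (n : ℕ) :
    ∃ S ⊆ Γ, S.card ≤ n ∧ (Ms z x S = ⊤ ∨ n + 1 ≤ Module.finrank ℂ (Ms z x S)) := by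
  induction n with
  | zero =>
    refine ⟨∅, Finset.empty_subset _, le_of_eq Finset.card_empty, Or.inr ?_⟩
    rw [zero_add, Submodule.one_le_finrank_iff]
    intro h
    have h1 := mem_Ms z x ∅
    rw [h, Submodule.mem_bot] at h1
    exact hx h1
  | succ n ih =>
    obtain ⟨S, hS, hc, h⟩ := ih
    by_cases ht : Ms z x S = ⊤
    · exact ⟨S, hS, by omega, Or.inl ht⟩
    have hf : n + 1 ≤ Module.finrank ℂ (Ms z x S) := by
      rcases h with h | h
      · exact absurd h ht
      · exact h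
    have hj : ∃ j ∈ Γ, Ms z x (insert j S) ≠ Ms z x S := by
      by_contra hcon
      push Not at hcon
      apply ht
      apply irr_top hI
      · intro j hj v hv
        have h1 := inv_Ms z x (insert j S) j (Finset.mem_insert_self j S) v
          (by rw [hcon j hj]; exact hv)
        rw [hcon j hj] at h1
        exact h1
      · intro h0
        have h1 := mem_Ms z x S
        rw [h0, Submodule.mem_bot] at h1
        exact hx h1
    obtain ⟨j, hj, hne⟩ := hj
    refine ⟨insert j S, Finset.insert_subset hj hS,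
      (Finset.card_insert_le j S).trans (by omega), Or.inr ?_⟩
    have hlt : Ms z x S < Ms z x (insert j S) :=
      lt_of_le_of_ne (Ms_mono z x (Finset.subset_insert j S)) (Ne.symm hne)
    have := Submodule.finrank_lt_finrank_of_lt hlt
    omega

theorem ker_inv {z : κ → Matrix (Fin d) (Fin d) ℂ} {x : EuclideanSpace ℂ (Fin d)}
    {S : Finset κ} (hS : Ms z x S = ⊤) {c : Matrix (Fin d) (Fin d) ℂ} (hc : c ∈ Cm z S)
    (h0 : toEuclideanLin c x = 0) : c = 0 := by
  have h1 : Ms z x S ≤ LinearMap.ker (toEuclideanLin c) := by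
    apply Ms_le
    · exact LinearMap.mem_ker.2 h0
    · intro j hj v hv
      rw [LinearMap.mem_ker] at hv
      have e : ∀ B C : Matrix (Fin d) (Fin d) ℂ, toEuclideanLin (B * C) v =
          toEuclideanLin B (toEuclideanLin C v) := by
        intro B C
        simp [toLpLin_apply]
      refine ⟨?_, ?_⟩
      · rw [LinearMap.mem_ker, ← e, (hc j hj).1, e, hv, map_zero]
      · rw [LinearMap.mem_ker, ← e, (hc j hj).2, e, hv, map_zero]
  rw [hS] at h1
  apply toEuclideanLin.injective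
  rw [map_zero]
  ext1 v
  exact h1 (Submodule.mem_top (x := v))

theorem finrank_Cm_le {z : κ → Matrix (Fin d) (Fin d) ℂ} {x : EuclideanSpace ℂ (Fin d)}
    {S : Finset κ} (hS : Ms z x S = ⊤) : Module.finrank ℂ (Cm z S) ≤ d := by
  let ev : Matrix (Fin d) (Fin d) ℂ →ₗ[ℂ] EuclideanSpace ℂ (Fin d) :=
    (LinearMap.applyₗ x).comp (toEuclideanLin : Matrix (Fin d) (Fin d) ℂ ≃ₗ[ℂ] _).toLinearMap
  have hinj : Function.Injective (ev.domRestrict (Cm z S)) := by
    rw [← LinearMap.ker_eq_bot, LinearMap.ker_eq_bot']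
    intro c hc
    apply Subtype.ext
    exact ker_inv hS c.2 hc
  have := LinearMap.finrank_le_finrank_of_injective hinj
  simpa using this

theorem one_mem_Cm (z : κ → Matrix (Fin d) (Fin d) ℂ) (S : Finset κ) :
    (1 : Matrix (Fin d) (Fin d) ℂ) ∈ Cm z S := by
  intro j _
  simp

theorem step2 [DecidableEq κ] {z : κ → Matrix (Fin d) (Fin d) ℂ} {Γ : Finset κ}
    (hI : IrrOn Γ z) {x : EuclideanSpace ℂ (Fin d)} {S₁ : Finset κ} (hS₁ : S₁ ⊆ Γ)
    (ht : Ms z x S₁ = ⊤) (n : ℕ) :
    ∃ S, S₁ ⊆ S ∧ S ⊆ Γ ∧ S.card ≤ S₁.card + n ∧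
      (IrrOn S z ∨ Module.finrank ℂ (Cm z S) + n ≤ d) := by
  induction n with
  | zero =>
    exact ⟨S₁, subset_rfl, hS₁, le_rfl, Or.inr (by simpa using finrank_Cm_le ht)⟩
  | succ n ih =>
    obtain ⟨S, h1, h2, h3, h4⟩ := ih
    by_cases hi : IrrOn S z
    · exact ⟨S, h1, h2, by omega, Or.inl hi⟩
    have h5 : Module.finrank ℂ (Cm z S) + n ≤ d := by
      rcases h4 with h | h
      · exact absurd h hi
      · exact h
    have h6 : ∃ c ∈ Cm z S, ¬ ∃ t : ℂ, c = t • (1 : Matrix (Fin d) (Fin d) ℂ) := by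
      by_contra hcon
      push Not at hcon
      exact hi ⟨hI.1, fun c hc => hcon c hc⟩
    obtain ⟨c, hc, hcs⟩ := h6
    have h7 : ∃ j ∈ Γ, ¬ (c * z j = z j * c ∧ c * (z j)ᴴ = (z j)ᴴ * c) := by
      by_contra hcon
      push Not at hcon
      exact hcs (hI.2 c fun j hj => ⟨(hcon j hj).1, (hcon j hj).2⟩)
    obtain ⟨j, hj, hjc⟩ := h7
    refine ⟨insert j S, h1.trans (Finset.subset_insert j S), Finset.insert_subset hj h2,
      (Finset.card_insert_le j S).trans (by omega), Or.inr ?_⟩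
    have hlt : Cm z (insert j S) < Cm z S := by
      refine lt_of_le_of_ne (fun a ha i hi' => ha i (Finset.mem_insert_of_mem hi')) ?_
      intro he
      rw [← he] at hc
      exact hjc (hc j (Finset.mem_insert_self j S))
    have := Submodule.finrank_lt_finrank_of_lt hlt
    omega

end Pool.Agent.helper16.FR

namespace Pool.Agent.helper93.FR

open Matrix Pool.Agent.helper16.FR

theorem Comp1 : Comp1_stmt := by
  classical
  intro κ d z Γ hI
  obtain ⟨i0⟩ := hI.1
  have hd : 1 ≤ d := by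
    have := i0.2
    omega
  let x : EuclideanSpace ℂ (Fin d) := EuclideanSpace.single i0 1
  have hx : x ≠ 0 := by
    intro h
    have h1 := congrArg (fun v : EuclideanSpace ℂ (Fin d) => v i0) h
    simp [x] at h1
  obtain ⟨S₁, h1, h2, h3⟩ := step1 hI hx (d - 1)
  have ht : Ms z x S₁ = ⊤ := by
    rcases h3 with h | h
    · exact h
    · apply Submodule.eq_top_of_finrank_eq
      have h4 := Submodule.finrank_le (Ms z x S₁)
      have h5 : Module.finrank ℂ (EuclideanSpace ℂ (Fin d)) = d := by simp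
      omega
  obtain ⟨S, h4, h5, h6, h7⟩ := step2 hI h1 ht (d - 1)
  refine ⟨S, h5, by omega, ?_⟩
  rcases h7 with h | h
  · exact h
  · refine ⟨hI.1, fun c hc => ?_⟩
    have h8 : Module.finrank ℂ (Cm z S) ≤ 1 := by omega
    obtain ⟨v, hv⟩ := finrank_le_one_iff.1 h8
    obtain ⟨s, hs⟩ := hv ⟨1, one_mem_Cm z S⟩
    obtain ⟨t, htt⟩ := hv ⟨c, hc⟩
    have hs' : s • (v : Matrix (Fin d) (Fin d) ℂ) = 1 := congrArg Subtype.val hs
    have ht' : t • (v : Matrix (Fin d) (Fin d) ℂ) = c := congrArg Subtype.val htt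
    have hs0 : s ≠ 0 := by
      intro h0
      rw [h0, zero_smul] at hs'
      have := congrArg (fun A : Matrix (Fin d) (Fin d) ℂ => A i0 i0) hs'
      simp at this
    refine ⟨t * s⁻¹, ?_⟩
    rw [← hs', smul_smul, mul_assoc, inv_mul_cancel₀ hs0, mul_one, ht']

end Pool.Agent.helper93.FR
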